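import Mathlib
import Pool.Agent.H317R3.Free
import Pool.Agent.H317R3.Poly
import Pool.Agent.W681.RC.Pattern

set_option autoImplicit false

/-!
Two minimal homeomorphisms `T`, `S` of one compact metric space for which no point is jointly
recurrent along `(n, 2 n)` for `T` and along `n ^ 2` for `S`.

Idea. `T` is the product `C² × C × R` on `Y × Y × K`, where `C` is the shift on a subshift `Y` and
`R` is a rotation of a product of finite cyclic groups of coprime orders. The words of `Y` consist of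
a very long word, periodic for most of its length, followed by a short flexible word; therefore
`C² × C × R` is minimal, but every two windows can be continued in such a way that the futures
coincide. If the futures of the two coordinates coincide, then the point cannot return at the times
`n` and `2 n` simultaneously, since `T ^ n` moves the first coordinate by `2 n` and `T ^ (2 n)` moves
the second coordinate by `2 n`. This gives an open continuous map of `Y × Y × K` onto the Cantor
space which vanishes at all double return times. For squares there is a minimal homeomorphism `S` of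
a Cantor space whose pattern of return times along the squares is a free coordinate, and the two
systems are put on one space in such a way that this pattern is the open map.
-/

namespace Pool.Agent.Results.MP_3e1352_an.DoubleAndSquare

open Filter Topology Pool.Agent.H317R3 Pool.Agent.W681.RC

/-- The system `(X, T)` is minimal: the orbit `{T^n x : n ∈ ℤ}` of every point `x` is dense. -/
def IsMinimal {X : Type} [TopologicalSpace X] (T : X ≃ₜ X) : Prop :=
  ∀ x : X, Dense (Set.range fun n : ℤ => (T ^ n) x)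

lemma squares : ∃ N1, ∀ M, N1 ≤ M → ∃ (S : XX ≃ₜ XX) (f : XX → Bool), Continuous f ∧
    (∀ x, DenseRange fun n : ℤ => (S ^ n) x) ∧
    ∀ (x : XX) (i : ℕ), f ((S ^ (((M + i : ℕ) : ℤ) ^ 2)) x) = f x ↔ x.1 i = true := by
  obtain ⟨N1, h⟩ := free_system (fun i => i ^ 2) (by
    intro i j hij
    exact Nat.pow_lt_pow_left hij (by norm_num)) (by
    intro A
    refine ⟨(A + 1) ^ 2, ?_⟩
    rintro _ ⟨i, rfl⟩ _ ⟨j, rfl⟩ h1 h2
    simp only at h1 h2 ⊢
    have hi : A + 1 ≤ i := (Nat.pow_le_pow_iff_left (by norm_num)).1 h1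
    have hij : i + 1 ≤ j := (Nat.pow_lt_pow_iff_left (by norm_num)).1 h2
    have h3 : (i + 1) ^ 2 ≤ j ^ 2 := Nat.pow_le_pow_left hij 2
    nlinarith)
  refine ⟨N1, fun M hM => ?_⟩
  obtain ⟨S, f, hf, hS, hr⟩ := h M hM
  refine ⟨S, f, hf, hS, fun x i => ?_⟩
  rw [← hr x i]
  push_cast
  rfl

/-- There are a (nonempty) compact metric space `X` and minimal homeomorphisms `T` and `S` of `X`
such that for no point `x` there are integers `n i → ∞` with `T^(n i) x → x`, `T^(2 n i) x → x` and
`S^((n i)^2) x → x`. -/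
theorem result :
    ∃ (X : Type) (_ : MetricSpace X) (_ : CompactSpace X) (_ : Nonempty X) (T S : X ≃ₜ X),
      IsMinimal T ∧ IsMinimal S ∧ ∀ x : X, ¬ ∃ n : ℕ → ℤ, Tendsto n atTop atTop ∧
        Tendsto (fun i => (T ^ (n i)) x) atTop (𝓝 x) ∧
        Tendsto (fun i => (T ^ (2 * n i)) x) atTop (𝓝 x) ∧
        Tendsto (fun i => (S ^ ((n i) ^ 2)) x) atTop (𝓝 x) := by
  obtain ⟨P, hG, hN, hW⟩ := W681.RC.exists_seq Bool
  obtain ⟨N1, hN1⟩ := squares
  obtain ⟨c, hc⟩ : ∃ c, JJ P ≤ (P c).m := ⟨JJ P, m_ge hG hN _⟩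
  obtain ⟨N, hNd⟩ : ∃ N, N = max N1 (max (P (c + 1)).m (P 0).m) := ⟨_, rfl⟩
  have hNN1 : N1 ≤ N := by rw [hNd]; exact le_max_left _ _
  have hNc : (P (c + 1)).m ≤ N := by
    rw [hNd]; exact (le_max_left _ _).trans (le_max_right _ _)
  have hN0 : (P 0).m ≤ N := by
    rw [hNd]; exact (le_max_right _ _).trans (le_max_right _ _)
  obtain ⟨S0, g, hg, hS0, hgr⟩ := hN1 N hNN1
  obtain ⟨V, hV, hsep⟩ := exists_sep (P := P)
  obtain ⟨Φ, hΦ⟩ := exists_split (zz_cont hG hN hW N) (zz_open hG hN hW N hN0)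
    (zz_surj hG hN hW N c hc hNc) (zz_flip N) V hV hsep
  -- transport `T` to the Cantor space
  set T : XX ≃ₜ XX := (Φ.symm.trans (TT P)).trans Φ with hT
  have hTp : ∀ (n : ℤ) (x : XX), Φ.symm ((T ^ n) x) = (TT P ^ n) (Φ.symm x) := by
    intro n x
    rw [hT, homeo_conj_zpow, Φ.symm_apply_apply]
  refine ⟨XX, TopologicalSpace.metrizableSpaceMetric XX, inferInstance, inferInstance, T, S0,
    ?_, hS0, ?_⟩
  · intro x
    have h1 : (fun n : ℤ => (T ^ n) x) = Φ ∘ fun n : ℤ => (TT P ^ n) (Φ.symm x) := by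
      funext n
      show (T ^ n) x = Φ ((TT P ^ n) (Φ.symm x))
      rw [← hTp, Φ.apply_symm_apply]
    rw [h1]
    exact Φ.surjective.denseRange.comp (TT_min hG hN _) Φ.continuous
  · rintro x ⟨n, hn, h1, h2, h3⟩
    set w := Φ.symm x with hw
    have e3 : ∀ᶠ k in atTop, g ((S0 ^ ((n k) ^ 2)) x) = g x := by
      have := (hg.tendsto x).comp h3
      rw [nhds_discrete, tendsto_pure] at this
      exact this
    have e1 : ∀ᶠ k in atTop, (TT P ^ (n k)) w ∈ {w' | w'.1.1.1 0 = w.1.1.1 0} := by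
      have h4 := (Φ.symm.continuous.tendsto x).comp h1
      have h5 := h4.eventually (ev_of_cont (cont1 (P := P) 0) (Φ.symm x))
      filter_upwards [h5] with k hk
      have h6 : (Φ.symm ∘ fun i => (T ^ (n i)) x) k = (TT P ^ (n k)) w := hTp _ _
      rw [h6] at hk
      exact hk
    have e2 : ∀ᶠ k in atTop, (TT P ^ (2 * n k)) w ∈
        {w' | w'.1.2.1 (ell w.1.1.1 w.1.2.1) = w.1.2.1 (ell w.1.1.1 w.1.2.1)} := by
      have h4 := (Φ.symm.continuous.tendsto x).comp h2
      have h5 := h4.eventually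
        (ev_of_cont (cont2 (P := P) (ell w.1.1.1 w.1.2.1)) (Φ.symm x))
      filter_upwards [h5] with k hk
      have h6 : (Φ.symm ∘ fun i => (T ^ (2 * n i)) x) k = (TT P ^ (2 * n k)) w := hTp _ _
      rw [h6] at hk
      exact hk
    have e4 : ∀ᶠ k in atTop, (N : ℤ) ≤ n k := hn.eventually_ge_atTop _
    obtain ⟨k, ⟨h4, h5⟩, h6, h7⟩ := ((e1.and e2).and (e3.and e4)).exists
    obtain ⟨i, hi⟩ : ∃ i : ℕ, n k = ((N + i : ℕ) : ℤ) := ⟨(n k - N).toNat, by push_cast; omega⟩
    rw [hi] at h4 h5 h6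
    rw [hgr] at h6
    rw [TT_zpow] at h4 h5
    have h8 : w.1.1.1 (0 + 2 * ((N + i : ℕ) : ℤ)) = w.1.1.1 0 := h4
    have h9 : w.1.2.1 ((ell w.1.1.1 w.1.2.1 : ℤ) + 2 * ((N + i : ℕ) : ℤ)) =
        w.1.2.1 (ell w.1.1.1 w.1.2.1) := h5
    rw [zero_add] at h8
    have h10 := zz_false hG hN hW N hN0 w i h8 h9
    have h11 : (Φ w).1 = x.1 := by rw [hw, Φ.apply_symm_apply]
    rw [← h11, hΦ, h10] at h6
    simp at h6

end Pool.Agent.Results.MP_3e1352_an.DoubleAndSquare
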